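import Mathlib
import Pool.Agent.Results.MP_0e7155_gt.ClosureOfConnected

/-!
# MP_0e7155_gt : local connectedness away from the removed set

Let `X` be a connected metric space in which any two connected sets have a connected intersection
and let `C` be a set of non-cut points of `X`.  Suppose that, outside finitely many connected sets
disjoint from `C`, the space `X` is locally connected at every point of `X \ C` and of the interior
of `C`.  Then `X \ C` is connected.  Nothing is assumed at the other points of `C`.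
-/

set_option autoImplicit false

open Set Topology

universe u

namespace Pool.Agent.Results.MP_0e7155_gt.FewBadConnectedSets

/-- `X` has arbitrarily small open connected neighbourhoods at `x`. -/
def LocConnAt {X : Type u} [TopologicalSpace X] (x : X) : Prop :=
  ∀ O ∈ 𝓝 x, ∃ W : Set X, IsOpen W ∧ x ∈ W ∧ IsPreconnected W ∧ W ⊆ O

section
variable {X : Type u} [MetricSpace X]

lemma exists_sep {D : Set X} (hD : ¬ IsPreconnected Dᶜ) :
    ∃ U V : Set X, IsOpen U ∧ IsOpen V ∧ Disjoint U V ∧ U.Nonempty ∧ V.Nonempty ∧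
      (U ∪ V)ᶜ ⊆ D := by
  unfold IsPreconnected at hD
  push Not at hD
  obtain ⟨u, v, hu, hv, hsub, hnu, hnv, hne⟩ := hD
  have hPQ : Disjoint (Dᶜ ∩ u) v := by
    rw [Set.disjoint_iff_inter_eq_empty]
    rw [← hne]; ext x; simp [and_assoc]
  have hQP : Disjoint (Dᶜ ∩ v) u := by
    rw [Set.disjoint_iff_inter_eq_empty]
    rw [← hne]; ext x; simp only [mem_inter_iff]; tauto
  have hsep : SeparatedNhds (Dᶜ ∩ u) (Dᶜ ∩ v) := by
    have h1 : Disjoint (closure (Dᶜ ∩ u)) (Dᶜ ∩ v) :=
      (hPQ.closure_left hv).mono_right inter_subset_right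
    have h2 : Disjoint (Dᶜ ∩ u) (closure (Dᶜ ∩ v)) :=
      ((hQP.closure_left hu).mono_right inter_subset_right).symm
    exact separatedNhds_iff_disjoint.mpr (CompletelyNormalSpace.completely_normal h1 h2)
  obtain ⟨U, V, hU, hV, hPU, hQV, hUV⟩ := hsep
  refine ⟨U, V, hU, hV, hUV, hnu.mono hPU, hnv.mono hQV, ?_⟩
  intro x hx
  by_contra hxD
  apply hx
  rcases hsub hxD with h | h
  · exact Or.inl (hPU ⟨hxD, h⟩)
  · exact Or.inr (hQV ⟨hxD, h⟩)

/-- A preconnected set is not the union of two disjoint relatively open nonempty parts. -/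
lemma no_split {D U V : Set X} (hD : IsPreconnected D) (hU : IsOpen U) (hV : IsOpen V)
    (hsub : D ⊆ U ∪ V) (hDU : (D ∩ U).Nonempty) (hDV : (D ∩ V).Nonempty)
    (hdis : Disjoint U V) : False := by
  obtain ⟨x, -, hxU, hxV⟩ := hD U V hU hV hsub hDU hDV
  exact Set.disjoint_left.1 hdis hxU hxV

/-- A set `C` of non-cut points with empty interior: if `U`, `V` are disjoint nonempty open sets
covering `X \ C`, then `U \ C` is not covered by finitely many connected subsets of `U`. -/
lemma fin_cover [ConnectedSpace X]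
    (hCIP : ∀ A B : Set X, IsPreconnected A → IsPreconnected B → IsPreconnected (A ∩ B))
    (C : Set X) (hC : ∀ c ∈ C, IsPreconnected ({c}ᶜ : Set X)) (hint : interior C = ∅)
    {U V : Set X} (hU : IsOpen U) (hV : IsOpen V) (hUV : Disjoint U V) (hU0 : U.Nonempty)
    (hV0 : V.Nonempty) (hsub : (U ∪ V)ᶜ ⊆ C)
    {ι : Type} [Finite ι] (A : ι → Set X) (hApre : ∀ j, IsPreconnected (A j))
    (hAU : ∀ j, A j ⊆ U) (hPT : ∀ a, a ∈ U → a ∉ C → a ∈ ⋃ j, A j) : False := by
  classical
  set T : Set X := ⋃ j, A j with hT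
  have hTU : T ⊆ U := iUnion_subset hAU
  -- hence `U` lies in the closure of `T`
  have hUcl : U ⊆ closure T := by
    intro x hx
    by_contra hxT
    have hopen : IsOpen (U ∩ (closure T)ᶜ) := hU.inter isClosed_closure.isOpen_compl
    have hsubC : U ∩ (closure T)ᶜ ⊆ C := by
      rintro y ⟨hy1, hy2⟩
      by_contra hyC
      exact hy2 (subset_closure (hPT y hy1 hyC))
    have : x ∈ interior C := interior_maximal hsubC hopen ⟨hx, hxT⟩
    rw [hint] at this
    exact this
  -- the set `D = closure T \ T`
  set D : Set X := closure T \ T with hDdef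
  have hTV : ∀ v ∈ V, v ∉ closure T := by
    intro v hv h
    obtain ⟨z, hz1, hz2⟩ := mem_closure_iff.1 h V hV hv
    exact Set.disjoint_left.1 hUV (hTU hz2) hz1
  have hDC : D ⊆ C := by
    rintro x ⟨hx1, hx2⟩
    by_contra hxC
    have hxUV : x ∈ U ∪ V := by
      by_contra h
      exact hxC (hsub h)
    rcases hxUV with h | h
    · exact hx2 (hPT x h hxC)
    · exact hTV x h hx1
  have hDj : ∀ j, IsPreconnected ((D ∩ closure (A j))ᶜ : Set X) := by
    intro j
    refine ClosureOfConnected.result X hCIP D (fun c hc => hC c (hDC hc)) (A j) (hApre j) ?_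
    rw [Set.disjoint_left]
    exact fun x hx h => h.2 (mem_iUnion.2 ⟨j, hx⟩)
  have hfin : ∀ s : Finset ι, IsPreconnected (⋂ j ∈ s, (D ∩ closure (A j))ᶜ : Set X) := by
    intro s
    induction s using Finset.induction_on with
    | empty => simpa using isPreconnected_univ
    | insert j s hj ih =>
      rw [Finset.set_biInter_insert]
      exact hCIP _ _ (hDj j) ih
  have hDpre : IsPreconnected (Dᶜ : Set X) := by
    have := Fintype.ofFinite ι
    have h1 := hfin Finset.univ
    have h2 : (⋂ j ∈ (Finset.univ : Finset ι), (D ∩ closure (A j))ᶜ : Set X) = Dᶜ := by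
      ext x
      simp only [Finset.mem_univ, iInter_true, mem_iInter, mem_compl_iff, mem_inter_iff, not_and]
      constructor
      · intro h hxD
        have hx : x ∈ closure T := hxD.1
        rw [hT, closure_iUnion_of_finite] at hx
        obtain ⟨j, hj⟩ := mem_iUnion.1 hx
        exact h j hxD hj
      · intro h j hxD
        exact absurd hxD h
    rwa [h2] at h1
  obtain ⟨v, hv⟩ := hV0
  obtain ⟨a, haU⟩ := hU0
  have hTne : ∃ t ∈ T, t ∈ U := by
    have := hUcl haU
    obtain ⟨z, hz1, hz2⟩ := mem_closure_iff.1 this U hU haU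
    exact ⟨z, hz2, hz1⟩
  obtain ⟨t, htT, htU⟩ := hTne
  refine no_split hDpre hU isClosed_closure.isOpen_compl (V := (closure T)ᶜ) ?_
    ⟨t, fun h => h.2 htT, htU⟩ ⟨v, fun h => hTV v hv h.1, hTV v hv⟩ ?_
  · intro x hx
    by_cases hxT : x ∈ closure T
    · left
      by_contra hxU
      exact hx ⟨hxT, fun h => hxU (hTU h)⟩
    · exact Or.inr hxT
  · rw [Set.disjoint_left]
    exact fun x hx h => h (hUcl hx)


/-- The core of the argument, for a set `C` with empty interior. -/
lemma core [ConnectedSpace X]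
    (hCIP : ∀ A B : Set X, IsPreconnected A → IsPreconnected B → IsPreconnected (A ∩ B))
    (C : Set X) (hC : ∀ c ∈ C, IsPreconnected ({c}ᶜ : Set X)) (hint : interior C = ∅)
    {ι : Type} [Finite ι] (B : ι → Set X) (hB : ∀ j, IsPreconnected (B j))
    (hBC : ∀ j, Disjoint (B j) C)
    (hloc : ∀ x, x ∉ C → (∀ j, x ∉ B j) → LocConnAt x)
    {U V : Set X} (hU : IsOpen U) (hV : IsOpen V) (hUV : Disjoint U V) (hU0 : U.Nonempty)
    (hV0 : V.Nonempty) (hsub : (U ∪ V)ᶜ ⊆ C) : False := by
  classical
  -- the components of `U` containing the sets `B j`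
  let A : ι → Set X := fun j =>
    if h : (B j ∩ U).Nonempty then connectedComponentIn U h.some else ∅
  have hApre : ∀ j, IsPreconnected (A j) := by
    intro j
    by_cases h : (B j ∩ U).Nonempty
    · simp only [A, dif_pos h]
      exact isPreconnected_connectedComponentIn
    · simp only [A, dif_neg h]
      exact isPreconnected_empty
  have hAU : ∀ j, A j ⊆ U := by
    intro j
    by_cases h : (B j ∩ U).Nonempty
    · simp only [A, dif_pos h]
      exact connectedComponentIn_subset U _
    · simp only [A, dif_neg h]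
      exact empty_subset _
  -- a preconnected subset of `U` meeting `B j` lies in `A j`
  have hAmax : ∀ j, ∀ K : Set X, IsPreconnected K → K ⊆ U → (K ∩ B j).Nonempty → K ⊆ A j := by
    intro j K hK hKU hKB
    obtain ⟨x, hxK, hxB⟩ := hKB
    have h : (B j ∩ U).Nonempty := ⟨x, hxB, hKU hxK⟩
    have hBU : B j ⊆ U := by
      intro y hy
      by_contra hyU
      have hBsub : B j ⊆ U ∪ V := by
        intro z hz
        by_contra hzn
        exact Set.disjoint_left.1 (hBC j) hz (hsub hzn)
      have hyV : y ∈ V := (hBsub hy).resolve_left hyU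
      exact no_split (hB j) hU hV hBsub h ⟨y, hy, hyV⟩ hUV
    simp only [A, dif_pos h]
    have hKB' : IsPreconnected (K ∪ B j) := IsPreconnected.union x hxK hxB hK (hB j)
    have := hKB'.subset_connectedComponentIn (x := h.some) (F := U) (Or.inr h.some_mem.1)
      (union_subset hKU hBU)
    exact subset_union_left.trans this
  set T : Set X := ⋃ j, A j with hT
  have hTU : T ⊆ U := iUnion_subset hAU
  -- every point of `U` off `C` lies in `T`
  have hPT : ∀ a, a ∈ U → a ∉ C → a ∈ T := by
    intro a haU haC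
    by_cases haB : ∃ j, a ∈ B j
    · obtain ⟨j, hj⟩ := haB
      exact mem_iUnion.2 ⟨j, hAmax j {a} isPreconnected_singleton
        (singleton_subset_iff.2 haU) ⟨a, rfl, hj⟩ rfl⟩
    push Not at haB
    by_contra haT
    set G : Set X := ⋃₀ {W | IsOpen W ∧ IsPreconnected W ∧ a ∈ W ∧ W ⊆ U} with hG
    have hGo : IsOpen G := isOpen_sUnion fun W hW => hW.1
    have hGpre : IsPreconnected G :=
      isPreconnected_sUnion a _ (fun W hW => hW.2.2.1) (fun W hW => hW.2.1)
    have hGU : G ⊆ U := sUnion_subset fun W hW => hW.2.2.2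
    have haG : a ∈ G := by
      obtain ⟨W, h1, h2, h3, h4⟩ := hloc a haC haB U (hU.mem_nhds haU)
      exact ⟨W, ⟨h1, h3, h2, h4⟩, h2⟩
    have hDC : closure G \ G ⊆ C := by
      rintro x ⟨hx1, hx2⟩
      by_contra hxC
      have hxUV : x ∈ U ∪ V := by
        by_contra h
        exact hxC (hsub h)
      have hxU : x ∈ U := by
        rcases hxUV with h | h
        · exact h
        · obtain ⟨z, hz1, hz2⟩ := mem_closure_iff.1 hx1 V hV h
          exact absurd hz1 (fun h' => Set.disjoint_left.1 hUV (hGU hz2) h')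
      by_cases hxB : ∃ j, x ∈ B j
      · obtain ⟨j, hj⟩ := hxB
        have hpre : IsPreconnected (insert x G) := by
          refine hGpre.subset_closure (subset_insert x G) ?_
          exact insert_subset hx1 subset_closure
        have := hAmax j (insert x G) hpre (insert_subset hxU hGU) ⟨x, mem_insert x G, hj⟩
        exact haT (mem_iUnion.2 ⟨j, this (mem_insert_of_mem x haG)⟩)
      · push Not at hxB
        obtain ⟨W, h1, h2, h3, h4⟩ := hloc x hxC hxB U (hU.mem_nhds hxU)
        obtain ⟨z, hzW, hzG⟩ := mem_closure_iff.1 hx1 W h1 h2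
        apply hx2
        refine ⟨G ∪ W, ⟨hGo.union h1, ?_, Or.inl haG, union_subset hGU h4⟩, Or.inr h2⟩
        exact IsPreconnected.union z hzG hzW hGpre h3
    have hcl := ClosureOfConnected.result X hCIP (closure G \ G) (fun c hc => hC c (hDC hc)) G hGpre
      (by rw [Set.disjoint_left]; exact fun x hx h => h.2 hx)
    have heq : (closure G \ G) ∩ closure G = closure G \ G :=
      inter_eq_left.2 fun x hx => hx.1
    rw [heq] at hcl
    obtain ⟨v, hv⟩ := hV0
    have hvcl : v ∉ closure G := by
      intro h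
      obtain ⟨z, hz1, hz2⟩ := mem_closure_iff.1 h V hV hv
      exact Set.disjoint_left.1 hUV (hGU hz2) hz1
    refine no_split hcl hGo isClosed_closure.isOpen_compl ?_ ⟨a, fun h => h.2 haG, haG⟩
      ⟨v, fun h => hvcl h.1, hvcl⟩ ?_
    · intro x hx
      by_cases hxG : x ∈ G
      · exact Or.inl hxG
      · exact Or.inr fun h => hx ⟨h, hxG⟩
    · rw [Set.disjoint_left]
      exact fun x hx h => h (subset_closure hx)
  exact fin_cover hCIP C hC hint hU hV hUV hU0 hV0 hsub A hApre hAU hPT

end

lemma main (X : Type u) [MetricSpace X] [ConnectedSpace X]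
    (hCIP : ∀ A B : Set X, IsPreconnected A → IsPreconnected B → IsPreconnected (A ∩ B))
    (C : Set X) (hC : ∀ c ∈ C, IsPreconnected ({c}ᶜ : Set X))
    (k : ℕ) (B : Fin k → Set X) (hB : ∀ j, IsPreconnected (B j))
    (hBC : ∀ j, Disjoint (B j) C)
    (hloc : ∀ x, (x ∉ C ∨ x ∈ interior C) → (∀ j, x ∉ B j) → LocConnAt x) :
    IsPreconnected (Cᶜ : Set X) := by
  by_contra hcon
  obtain ⟨U, V, hU, hV, hUV, hU0, hV0, hsub⟩ := exists_sep hcon
  set F : Set X := closure U ∩ Uᶜ with hF
  have hclUV : Disjoint (closure U) V := hUV.closure_left hV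
  have hFC : F ⊆ C := by
    rintro x ⟨hx1, hx2⟩
    apply hsub
    rintro (h | h)
    · exact hx2 h
    · exact Set.disjoint_left.1 hclUV hx1 h
  have hFint : interior F = ∅ := by
    rw [Set.eq_empty_iff_forall_notMem]
    intro x hx
    have hxF : x ∈ F := interior_subset hx
    obtain ⟨z, hz1, hz2⟩ := mem_closure_iff.1 hxF.1 (interior F) isOpen_interior hx
    exact (interior_subset hz1).2 hz2
  set C' : Set X := {x | x ∈ C ∧ (x ∈ interior C → x ∈ F)} with hC'
  have hC'C : C' ⊆ C := fun x hx => hx.1
  have hint : interior C' = ∅ := by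
    rw [Set.eq_empty_iff_forall_notMem]
    intro x hx
    have h1 : interior C' ⊆ F := by
      intro y hy
      have hyC' : y ∈ C' := interior_subset hy
      exact hyC'.2 (interior_mono hC'C hy)
    have : x ∈ interior F := interior_maximal h1 isOpen_interior hx
    rw [hFint] at this
    exact this
  refine core hCIP C' (fun c hc => hC c hc.1) hint B hB
    (fun j => (hBC j).mono_right hC'C) ?_ hU (V := (closure U)ᶜ) isClosed_closure.isOpen_compl
    ?_ hU0 ?_ ?_
  · intro x hx hxB
    refine hloc x ?_ hxB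
    by_cases hxC : x ∈ C
    · right
      by_contra hxi
      exact hx ⟨hxC, fun h => absurd h hxi⟩
    · exact Or.inl hxC
  · rw [Set.disjoint_left]
    exact fun x hx h => h (subset_closure hx)
  · obtain ⟨v, hv⟩ := hV0
    exact ⟨v, fun h => Set.disjoint_left.1 hclUV h hv⟩
  · intro x hx
    have hxU : x ∉ U := fun h => hx (Or.inl h)
    have hxc : x ∈ closure U := by
      by_contra h
      exact hx (Or.inr h)
    exact ⟨hFC ⟨hxc, hxU⟩, fun _ => ⟨hxc, hxU⟩⟩

/-- Distinct components of the complement of a set of non-cut points have disjoint closures. -/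
lemma closures_disjoint (X : Type u) [MetricSpace X]
    (hCIP : ∀ A B : Set X, IsPreconnected A → IsPreconnected B → IsPreconnected (A ∩ B))
    (C : Set X) (hC : ∀ c ∈ C, IsPreconnected ({c}ᶜ : Set X)) (x y : X) (hx : x ∉ C)
    (hy : y ∉ C) (hne : connectedComponentIn Cᶜ x ≠ connectedComponentIn Cᶜ y) :
    Disjoint (closure (connectedComponentIn Cᶜ x)) (closure (connectedComponentIn Cᶜ y)) := by
  rw [Set.disjoint_left]
  intro c hc1 hc2
  set A : Set X := connectedComponentIn Cᶜ x with hA
  set A' : Set X := connectedComponentIn Cᶜ y with hA'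
  have hAp : IsPreconnected A := isPreconnected_connectedComponentIn
  have hAp' : IsPreconnected A' := isPreconnected_connectedComponentIn
  have hAC : A ⊆ Cᶜ := connectedComponentIn_subset _ _
  have hAC' : A' ⊆ Cᶜ := connectedComponentIn_subset _ _
  have hxA : x ∈ A := mem_connectedComponentIn hx
  have hyA : y ∈ A' := mem_connectedComponentIn hy
  have h1 : IsPreconnected (insert c A) :=
    hAp.subset_closure (subset_insert c A) (insert_subset hc1 subset_closure)
  have h2 : IsPreconnected (insert c A') :=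
    hAp'.subset_closure (subset_insert c A') (insert_subset hc2 subset_closure)
  have h3 : IsPreconnected (insert c A ∪ insert c A') :=
    IsPreconnected.union c (mem_insert c A) (mem_insert c A') h1 h2
  -- some preconnected subset of the complement of `C` contains `x` and `y`
  have key : ∀ K : Set X, IsPreconnected K → K ⊆ Cᶜ → x ∈ K → y ∈ K → False := by
    intro K hK hKC hxK hyK
    apply hne
    have hyx : y ∈ A := hK.subset_connectedComponentIn hxK hKC hyK
    exact connectedComponentIn_eq hyx
  by_cases hcC : c ∈ C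
  · refine key _ (hCIP _ _ h3 (hC c hcC)) ?_ ⟨Or.inl (mem_insert_of_mem c hxA), ?_⟩
      ⟨Or.inr (mem_insert_of_mem c hyA), ?_⟩
    · rintro z ⟨hz1, hz2⟩
      rcases hz1 with (h | h) | (h | h)
      · exact absurd h hz2
      · exact hAC h
      · exact absurd h hz2
      · exact hAC' h
    · intro h
      rw [mem_singleton_iff] at h
      exact hx (h ▸ hcC)
    · intro h
      rw [mem_singleton_iff] at h
      exact hy (h ▸ hcC)
  · refine key _ h3 ?_ (Or.inl (mem_insert_of_mem c hxA)) (Or.inr (mem_insert_of_mem c hyA))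
    rintro z ((h | h) | (h | h))
    · rw [h]; exact hcC
    · exact hAC h
    · rw [h]; exact hcC
    · exact hAC' h

/-- If `C` is a set of non-cut points with empty interior and `X \ C` is not connected, then no
component of `X \ C` is relatively open. -/
lemma not_open (X : Type u) [MetricSpace X] [ConnectedSpace X]
    (hCIP : ∀ A B : Set X, IsPreconnected A → IsPreconnected B → IsPreconnected (A ∩ B))
    (C : Set X) (hC : ∀ c ∈ C, IsPreconnected ({c}ᶜ : Set X)) (hint : interior C = ∅)
    (hdis : ¬ IsPreconnected (Cᶜ : Set X)) (x : X) (hx : x ∉ C) (O : Set X) (hO : IsOpen O) :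
    O ∩ Cᶜ ≠ connectedComponentIn Cᶜ x := by
  intro heq
  set A : Set X := connectedComponentIn Cᶜ x with hA
  have hAp : IsPreconnected A := isPreconnected_connectedComponentIn
  have hAC : A ⊆ Cᶜ := connectedComponentIn_subset _ _
  have hxA : x ∈ A := mem_connectedComponentIn hx
  have hclA : ∀ z, z ∈ closure A → z ∉ C → z ∈ A := by
    intro z hz hzC
    have h1 : IsPreconnected (insert z A) :=
      hAp.subset_closure (subset_insert z A) (insert_subset hz subset_closure)
    exact h1.subset_connectedComponentIn (mem_insert_of_mem z hxA) (insert_subset hzC hAC)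
      (mem_insert z A)
  have h1 : Disjoint (closure A) (Cᶜ \ A) := by
    rw [Set.disjoint_left]
    exact fun z hz hz2 => hz2.2 (hclA z hz hz2.1)
  have h2 : Disjoint A (closure (Cᶜ \ A)) := by
    rw [Set.disjoint_left]
    intro z hz hz2
    have hzO : z ∈ O := by
      have : z ∈ O ∩ Cᶜ := by rw [heq]; exact hz
      exact this.1
    obtain ⟨w, hw1, hw2⟩ := mem_closure_iff.1 hz2 O hO hzO
    apply hw2.2
    rw [← heq]
    exact ⟨hw1, hw2.1⟩
  obtain ⟨U, V, hU, hV, hAU, hQV, hUV⟩ :=
    separatedNhds_iff_disjoint.mpr (CompletelyNormalSpace.completely_normal h1 h2)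
  have hQ : (Cᶜ \ A).Nonempty := by
    rw [Set.nonempty_iff_ne_empty]
    intro h
    apply hdis
    have : (Cᶜ : Set X) = A := Subset.antisymm (diff_eq_empty.1 h) hAC
    rw [this]
    exact hAp
  refine fin_cover hCIP C hC hint hU hV hUV ⟨x, hAU hxA⟩ (hQ.mono hQV) ?_ (ι := Fin 1)
    (fun _ => A) (fun _ => hAp) (fun _ => hAU) ?_
  · intro z hz
    by_contra hzC
    apply hz
    by_cases hzA : z ∈ A
    · exact Or.inl (hAU hzA)
    · exact Or.inr (hQV ⟨hzC, hzA⟩)
  · intro a haU haC
    refine mem_iUnion.2 ⟨0, ?_⟩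
    by_contra haA
    exact Set.disjoint_left.1 hUV haU (hQV ⟨haC, haA⟩)

/-- If `C` is a set of non-cut points with empty interior and `X \ C` is not connected, then
`X \ C` has infinitely many components. -/
lemma infinite_components (X : Type u) [MetricSpace X] [ConnectedSpace X]
    (hCIP : ∀ A B : Set X, IsPreconnected A → IsPreconnected B → IsPreconnected (A ∩ B))
    (C : Set X) (hC : ∀ c ∈ C, IsPreconnected ({c}ᶜ : Set X)) (hint : interior C = ∅)
    (hdis : ¬ IsPreconnected (Cᶜ : Set X)) :
    {K : Set X | ∃ x, x ∉ C ∧ K = connectedComponentIn Cᶜ x}.Infinite := by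
  intro hfin
  obtain ⟨x, hx⟩ : ∃ x, x ∉ C := by
    by_contra h
    push Not at h
    apply hdis
    have : (Cᶜ : Set X) = ∅ := by
      ext z; simpa using h z
    rw [this]
    exact isPreconnected_empty
  set S : Set (Set X) := {K : Set X | ∃ x, x ∉ C ∧ K = connectedComponentIn Cᶜ x} with hS
  set A : Set X := connectedComponentIn Cᶜ x with hA
  have hcl : IsClosed (⋃ K ∈ S \ {A}, closure K) :=
    (hfin.subset diff_subset).isClosed_biUnion fun K _ => isClosed_closure
  refine not_open X hCIP C hC hint hdis x hx (⋃ K ∈ S \ {A}, closure K)ᶜ hcl.isOpen_compl ?_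
  ext z
  constructor
  · rintro ⟨hz1, hz2⟩
    by_contra hzA
    apply hz1
    refine mem_biUnion (x := connectedComponentIn Cᶜ z) ⟨⟨z, hz2, rfl⟩, ?_⟩
      (subset_closure (mem_connectedComponentIn hz2))
    intro h
    rw [mem_singleton_iff] at h
    apply hzA
    change z ∈ A
    rw [← h]
    exact mem_connectedComponentIn hz2
  · intro hzA
    have hzC : z ∈ (Cᶜ : Set X) := connectedComponentIn_subset _ _ hzA
    refine ⟨?_, hzC⟩
    intro hz
    simp only [mem_iUnion] at hz
    obtain ⟨K, ⟨⟨y, hy, hK⟩, hKA⟩, hzK⟩ := hz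
    have hne : connectedComponentIn Cᶜ x ≠ connectedComponentIn Cᶜ y := by
      intro h
      apply hKA
      rw [mem_singleton_iff, hK, hA]
      exact h.symm
    have := closures_disjoint X hCIP C hC x y hx hy hne
    rw [hK] at hzK
    exact Set.disjoint_left.1 this (subset_closure hzA) hzK

theorem result (X : Type u) [MetricSpace X] [ConnectedSpace X]
    (hCIP : ∀ A B : Set X, IsPreconnected A → IsPreconnected B → IsPreconnected (A ∩ B))
    (C : Set X) (hC : ∀ c ∈ C, IsPreconnected ({c}ᶜ : Set X)) :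
    (∀ x y : X, x ∉ C → y ∉ C → connectedComponentIn Cᶜ x ≠ connectedComponentIn Cᶜ y →
      Disjoint (closure (connectedComponentIn Cᶜ x)) (closure (connectedComponentIn Cᶜ y))) ∧
    (interior C = ∅ → ∀ U V : Set X, IsOpen U → IsOpen V → Disjoint U V → U.Nonempty →
      V.Nonempty → Cᶜ ⊆ U ∪ V → ∀ (k : ℕ) (A : Fin k → Set X), (∀ j, IsPreconnected (A j)) →
      (∀ j, A j ⊆ U) → ¬ U \ C ⊆ ⋃ j, A j) ∧
    (interior C = ∅ → ¬ IsPreconnected (Cᶜ : Set X) →
      {K : Set X | ∃ x, x ∉ C ∧ K = connectedComponentIn Cᶜ x}.Infinite ∧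
      ∀ x, x ∉ C → ∀ O : Set X, IsOpen O → O ∩ Cᶜ ≠ connectedComponentIn Cᶜ x) ∧
    (∀ (k : ℕ) (B : Fin k → Set X), (∀ j, IsPreconnected (B j)) → (∀ j, Disjoint (B j) C) →
      (∀ x, (x ∉ C ∨ x ∈ interior C) → (∀ j, x ∉ B j) → LocConnAt x) →
      IsPreconnected (Cᶜ : Set X)) := by
  refine ⟨closures_disjoint X hCIP C hC, ?_, fun hint hdis =>
    ⟨infinite_components X hCIP C hC hint hdis, not_open X hCIP C hC hint hdis⟩,
    main X hCIP C hC⟩
  intro hint U V hU hV hUV hU0 hV0 hsub k A hA hAU hcov
  refine fin_cover hCIP C hC hint hU hV hUV hU0 hV0 ?_ A hA hAU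
    (fun a ha haC => hcov ⟨ha, haC⟩)
  intro x hx
  by_contra hxC
  exact hx (hsub hxC)

end Pool.Agent.Results.MP_0e7155_gt.FewBadConnectedSets
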