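import Mathlib
import Pool.Agent.Results.MP_0e7155_gt.LocallyCompactPoints

/-!
# MP_0e7155_gt : connectedness im kleinen at the removed points

Let `X` be a connected metric space in which any two connected sets have a connected intersection
and let `C` be a set of non-cut points of `X` at each of which `X` is connected im kleinen.  If
`X \ C` is not connected, then `C` contains a nonempty closed subset `F` of `X` every nonempty
relatively open part of which separates `X`; no such part is covered by finitely many sets each of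
which is compact or lies in the closure of a connected set missing `F`.
-/

set_option autoImplicit false

open Set Topology Cardinal

universe u

namespace Pool.Agent.Results.MP_0e7155_gt.ImKleinenAtRemovedPoints

/-- `X` is connected im kleinen at `x`. -/
def ImKleinenAt {X : Type u} [TopologicalSpace X] (x : X) : Prop :=
  ∀ O ∈ 𝓝 x, ∃ K ∈ 𝓝 x, IsPreconnected K ∧ K ⊆ O

/-- A nonempty closed set without isolated points in a completely metrizable space has at least
continuum many points. -/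
lemma card_perfect {Y : Type u} [TopologicalSpace Y] [TopologicalSpace.IsCompletelyMetrizableSpace Y]
    {P : Set Y} (hP : Perfect P) (hne : P.Nonempty) : 𝔠 ≤ #P := by
  let _ := TopologicalSpace.upgradeIsCompletelyMetrizable Y
  obtain ⟨f, hf1, -, hf3⟩ := hP.exists_nat_bool_injection hne
  have h1 : #(ULift.{u} (ℕ → Bool)) ≤ #P := by
    refine Cardinal.mk_le_of_injective (f := fun x => ⟨f x.down, hf1 ⟨x.down, rfl⟩⟩) ?_
    intro x y h
    exact ULift.ext _ _ (hf3 (congrArg Subtype.val h))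
  refine le_trans (le_of_eq ?_) h1
  simp

section
variable {X : Type u} [MetricSpace X]

/-- The local step. -/
lemma local_step
    (hCIP : ∀ A B : Set X, IsPreconnected A → IsPreconnected B → IsPreconnected (A ∩ B))
    {U V F J O : Set X} (hU : IsOpen U) (hV : IsOpen V) (hUV : Disjoint U V)
    (hF : F = (U ∪ V)ᶜ) (hJF : J ⊆ F) (hJ : IsPreconnected (Jᶜ : Set X)) {c : X}
    (hcU : c ∈ closure U) (hcV : c ∈ closure V) (hc : ImKleinenAt c) (hO : O ∈ 𝓝 c)
    (hOJ : F ∩ O ⊆ J) : False := by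
  obtain ⟨K, hK, hKp, hKO⟩ := hc O hO
  have h1 := hCIP _ _ hKp hJ
  have hJUV : ∀ x ∈ U ∪ V, x ∉ J := by
    intro x hx hxJ
    have := hJF hxJ
    rw [hF] at this
    exact this hx
  obtain ⟨x, hxK, hxU⟩ := mem_closure_iff_nhds.1 hcU K hK
  obtain ⟨y, hyK, hyV⟩ := mem_closure_iff_nhds.1 hcV K hK
  obtain ⟨z, -, hz1, hz2⟩ := h1 U V hU hV (by
      rintro z ⟨hz, hzJ⟩
      by_contra hzn
      apply hzJ
      apply hOJ
      refine ⟨?_, hKO hz⟩
      rw [hF]
      exact hzn)
    ⟨x, ⟨hxK, hJUV x (Or.inl hxU)⟩, hxU⟩ ⟨y, ⟨hyK, hJUV y (Or.inr hyV)⟩, hyV⟩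
  exact Set.disjoint_left.1 hUV hz1 hz2

/-- The structure of a separator. -/
lemma structure_sep [ConnectedSpace X]
    (hCIP : ∀ A B : Set X, IsPreconnected A → IsPreconnected B → IsPreconnected (A ∩ B))
    (C : Set X) (hC : ∀ c ∈ C, IsPreconnected ({c}ᶜ : Set X))
    (hik : ∀ c ∈ C, ImKleinenAt c) (hdis : ¬ IsPreconnected (Cᶜ : Set X)) :
    ∃ F : Set X, IsClosed F ∧ F.Nonempty ∧ F ⊆ C ∧ interior F = ∅ ∧
      ∀ O : Set X, IsOpen O → (F ∩ O).Nonempty →
        ¬ IsPreconnected ((F ∩ O)ᶜ : Set X) ∧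
        ∀ (n : ℕ) (K : Fin n → Set X),
          (∀ i, IsCompact (K i) ∨
            ∃ A : Set X, IsPreconnected A ∧ Disjoint A F ∧ K i ⊆ closure A) →
          ¬ F ∩ O ⊆ ⋃ i, K i := by
  classical
  obtain ⟨U, V, hU, hV, hUV, hU0, hV0, hsub⟩ := CompactClosedSubsets.exists_sep hdis
  set V1 : Set X := (closure U)ᶜ with hV1
  set U1 : Set X := (closure V1)ᶜ with hU1
  have hV1o : IsOpen V1 := isClosed_closure.isOpen_compl
  have hU1o : IsOpen U1 := isClosed_closure.isOpen_compl
  have hVV1 : V ⊆ V1 := by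
    intro x hx h
    exact Set.disjoint_left.1 (hUV.closure_left hV) h hx
  have hUU1 : U ⊆ U1 := by
    intro x hx h
    have hd : Disjoint V1 U := by
      rw [Set.disjoint_left]
      exact fun y hy hyU => hy (subset_closure hyU)
    exact Set.disjoint_left.1 (hd.closure_left hU) h hx
  have hd1 : Disjoint U1 V1 := by
    rw [Set.disjoint_left]
    exact fun y hy hyV => hy (subset_closure hyV)
  have hU1ne : U1.Nonempty := hU0.mono hUU1
  have hV1ne : V1.Nonempty := hV0.mono hVV1
  set F : Set X := (U1 ∪ V1)ᶜ with hF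
  have hFC : F ⊆ C := by
    intro x hx
    apply hsub
    intro h
    exact hx (union_subset_union hUU1 hVV1 h)
  have hFcl : IsClosed F := (hU1o.union hV1o).isClosed_compl
  have hFU : ∀ p ∈ F, p ∈ closure U1 := by
    intro p hp
    have : p ∈ closure U := by
      by_contra h
      exact hp (Or.inr h)
    exact closure_mono hUU1 this
  have hFV : ∀ p ∈ F, p ∈ closure V1 := by
    intro p hp
    by_contra h
    exact hp (Or.inl h)
  have hFne : F.Nonempty := by
    by_contra hemp
    rw [not_nonempty_iff_eq_empty] at hemp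
    have huniv : U1 ∪ V1 = Set.univ := by
      rw [← compl_compl (U1 ∪ V1), ← hF, hemp, compl_empty]
    refine CompactClosedSubsets.not_preconnected_of_open hU1o hV1o hd1 hU1ne hV1ne ?_
    rw [huniv]
    exact isPreconnected_univ
  have hFint : interior F = ∅ := by
    rw [Set.eq_empty_iff_forall_notMem]
    intro x hx
    obtain ⟨z, hz1, hz2⟩ := mem_closure_iff.1 (hFU x (interior_subset hx)) (interior F)
      isOpen_interior hx
    exact (interior_subset hz1) (Or.inl hz2)
  -- a relatively open part of `F` contained in a non-separating subset of `F`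
  have key : ∀ (O J : Set X), IsOpen O → (F ∩ O).Nonempty → F ∩ O ⊆ J → J ⊆ F →
      IsPreconnected (Jᶜ : Set X) → False := by
    rintro O J hO ⟨c, hcF, hcO⟩ hOJ hJF hJ
    exact local_step hCIP hU1o hV1o hd1 hF hJF hJ (hFU c hcF) (hFV c hcF) (hik c (hFC hcF))
      (hO.mem_nhds hcO) hOJ
  refine ⟨F, hFcl, hFne, hFC, hFint, fun O hO hne => ⟨fun hcon => ?_, ?_⟩⟩
  · exact key O (F ∩ O) hO hne subset_rfl inter_subset_left hcon
  · intro n K hK hcov
    have hex : ∀ i, ∃ J : Set X, F ∩ K i ⊆ J ∧ J ⊆ F ∧ IsPreconnected (Jᶜ : Set X) := by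
      intro i
      rcases hK i with hc | ⟨A, hA1, hA2, hA3⟩
      · refine ⟨F ∩ K i, subset_rfl, inter_subset_left, ?_⟩
        have hcomp : IsCompact (F ∩ K i) := hc.inter_left hFcl
        exact CompactClosedSubsets.result X hCIP (F ∩ K i) (fun p hp => hC p (hFC hp.1))
          (fun E hE hEcl => hcomp.of_isClosed_subset hEcl hE)
      · refine ⟨F ∩ closure A, inter_subset_inter_right F hA3, inter_subset_left, ?_⟩
        exact ClosureOfConnected.result X hCIP F (fun c hc => hC c (hFC hc)) A hA1 hA2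
    choose J hJ1 hJ2 hJ3 using hex
    have hfin : ∀ s : Finset (Fin n), IsPreconnected (⋂ j ∈ s, (J j)ᶜ : Set X) := by
      intro s
      induction s using Finset.induction_on with
      | empty => simpa using isPreconnected_univ
      | insert j s hj ih =>
        rw [Finset.set_biInter_insert]
        exact hCIP _ _ (hJ3 j) ih
    have h1 := hfin Finset.univ
    have h2 : (⋂ j ∈ (Finset.univ : Finset (Fin n)), (J j)ᶜ : Set X) = (⋃ j, J j)ᶜ := by
      rw [compl_iUnion]
      simp
    rw [h2] at h1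
    refine key O (⋃ j, J j) hO hne ?_ (iUnion_subset hJ2) h1
    intro x hx
    obtain ⟨i, hi⟩ := mem_iUnion.1 (hcov hx)
    exact mem_iUnion.2 ⟨i, hJ1 i ⟨hx.1, hi⟩⟩

/-- Enough points of local compactness in the closed subsets of `C`. -/
lemma of_locally_compact [ConnectedSpace X]
    (hCIP : ∀ A B : Set X, IsPreconnected A → IsPreconnected B → IsPreconnected (A ∩ B))
    (C : Set X) (hC : ∀ c ∈ C, IsPreconnected ({c}ᶜ : Set X))
    (hik : ∀ c ∈ C, ImKleinenAt c)
    (hlc : ∀ F : Set X, IsClosed F → F.Nonempty → F ⊆ C → ∃ x ∈ F, ∃ N ∈ 𝓝 x, IsCompact (F ∩ N)) :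
    IsPreconnected (Cᶜ : Set X) := by
  by_contra hdis
  obtain ⟨F, hFcl, hFne, hFC, -, hF⟩ := structure_sep hCIP C hC hik hdis
  obtain ⟨x, hxF, N, hN, hcomp⟩ := hlc F hFcl hFne hFC
  refine (hF (interior N) isOpen_interior ⟨x, hxF, mem_interior_iff_mem_nhds.2 hN⟩).2 1
    (fun _ => F ∩ N) (fun _ => Or.inl hcomp) ?_
  intro y hy
  exact mem_iUnion.2 ⟨0, hy.1, interior_subset hy.2⟩

/-- Sets `C` whose closed parts are completely metrizable, in separable spaces. -/
lemma of_complete [ConnectedSpace X] [TopologicalSpace.SeparableSpace X]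
    (hCIP : ∀ A B : Set X, IsPreconnected A → IsPreconnected B → IsPreconnected (A ∩ B))
    (C : Set X) (hC : ∀ c ∈ C, IsPreconnected ({c}ᶜ : Set X))
    (hloc : ∀ c ∈ C, (∃ K ∈ 𝓝 c, IsCompact K) ∨ ImKleinenAt c)
    (hcm : ∀ F : Set X, IsClosed F → F ⊆ C → TopologicalSpace.IsCompletelyMetrizableSpace F) :
    IsPreconnected (Cᶜ : Set X) := by
  classical
  set C1 : Set X := {c | c ∈ C ∧ ∃ K ∈ 𝓝 c, IsCompact K} with hC1
  set C2 : Set X := {c | c ∈ C ∧ ImKleinenAt c} with hC2
  have h1 : IsPreconnected (C1ᶜ : Set X) :=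
    LocallyCompactPoints.result X hCIP C1 (fun c hc => hC c hc.1) (fun c hc => hc.2)
  have h2 : IsPreconnected (C2ᶜ : Set X) := by
    refine SmallSeparator.small_separator X hCIP C2 ?_
    intro F0 hF0C hF0cl hF0lt
    by_contra hdis
    obtain ⟨F, hFcl, hFne, hFC, -, hF⟩ := structure_sep hCIP F0
      (fun c hc => hC c (hF0C hc).1) (fun c hc => (hF0C hc).2) hdis
    -- `F` has no isolated point
    have hacc : ∀ x ∈ F, ∀ O : Set X, IsOpen O → x ∈ O → ∃ y ∈ F, y ∈ O ∧ y ≠ x := by
      intro x hx O hO hxO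
      by_contra hno
      push Not at hno
      refine (hF O hO ⟨x, hx, hxO⟩).2 1 (fun _ => {x}) (fun _ => Or.inl isCompact_singleton) ?_
      intro y hy
      exact mem_iUnion.2 ⟨0, hno y hy.1 hy.2⟩
    have hFsub : F ⊆ C := fun x hx => (hF0C (hFC hx)).1
    have hcmF : TopologicalSpace.IsCompletelyMetrizableSpace F := hcm F hFcl hFsub
    have hPne : (Set.univ : Set F).Nonempty := by
      obtain ⟨x, hx⟩ := hFne
      exact ⟨⟨x, hx⟩, mem_univ _⟩
    have hPperf : Perfect (Set.univ : Set F) := by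
      refine ⟨isClosed_univ, ?_⟩
      intro x _
      rw [accPt_iff_nhds]
      intro W hW
      obtain ⟨O, hO, hOW⟩ := mem_nhds_subtype F x W |>.1 hW
      obtain ⟨O', hO'O, hO'o, hxO'⟩ := mem_nhds_iff.1 hO
      obtain ⟨y, hyF, hyO, hyx⟩ := hacc x.1 x.2 O' hO'o hxO'
      refine ⟨⟨y, hyF⟩, ⟨hOW (hO'O hyO), mem_univ _⟩, ?_⟩
      intro h
      exact hyx (congrArg Subtype.val h)
    have h3 : 𝔠 ≤ #(Set.univ : Set F) := card_perfect hPperf hPne
    have h4 : 𝔠 ≤ #F := by
      rwa [Cardinal.mk_univ] at h3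
    have h5 : #F ≤ #F0 := Cardinal.mk_le_mk_of_subset hFC
    exact absurd (h4.trans h5) (not_le.2 hF0lt)
  have h3 := hCIP _ _ h1 h2
  have h4 : (C1ᶜ ∩ C2ᶜ : Set X) = Cᶜ := by
    rw [← compl_union]
    congr 1
    ext x
    constructor
    · rintro (h | h)
      · exact h.1
      · exact h.1
    · intro h
      rcases hloc x h with h' | h'
      · exact Or.inl ⟨h, h'⟩
      · exact Or.inr ⟨h, h'⟩
  rwa [h4] at h3

end

theorem result (X : Type u) [MetricSpace X] [ConnectedSpace X]
    (hCIP : ∀ A B : Set X, IsPreconnected A → IsPreconnected B → IsPreconnected (A ∩ B))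
    (C : Set X) (hC : ∀ c ∈ C, IsPreconnected ({c}ᶜ : Set X)) :
    ((∀ c ∈ C, ImKleinenAt c) → ¬ IsPreconnected (Cᶜ : Set X) →
      ∃ F : Set X, IsClosed F ∧ F.Nonempty ∧ F ⊆ C ∧ interior F = ∅ ∧
      ∀ O : Set X, IsOpen O → (F ∩ O).Nonempty →
        ¬ IsPreconnected ((F ∩ O)ᶜ : Set X) ∧
        ∀ (n : ℕ) (K : Fin n → Set X),
          (∀ i, IsCompact (K i) ∨
            ∃ A : Set X, IsPreconnected A ∧ Disjoint A F ∧ K i ⊆ closure A) →
          ¬ F ∩ O ⊆ ⋃ i, K i) ∧
    ((∀ c ∈ C, ImKleinenAt c) →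
      (∀ F : Set X, IsClosed F → F.Nonempty → F ⊆ C → ∃ x ∈ F, ∃ N ∈ 𝓝 x, IsCompact (F ∩ N)) →
      IsPreconnected (Cᶜ : Set X)) ∧
    (TopologicalSpace.SeparableSpace X →
      (∀ F : Set X, IsClosed F → F ⊆ C → TopologicalSpace.IsCompletelyMetrizableSpace F) →
      (∀ c ∈ C, (∃ K ∈ 𝓝 c, IsCompact K) ∨ ImKleinenAt c) → IsPreconnected (Cᶜ : Set X)) := by
  refine ⟨fun hik hdis => structure_sep hCIP C hC hik hdis,
    fun hik hlc => of_locally_compact hCIP C hC hik hlc, ?_⟩
  intro hsep hcm hloc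
  exact of_complete hCIP C hC hloc hcm

end Pool.Agent.Results.MP_0e7155_gt.ImKleinenAtRemovedPoints
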